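import Mathlib
import Pool.Agent.Y418.GR.Iter

set_option autoImplicit false
set_option linter.unusedVariables false

/-!
# The clique achievement number in the `(m:b)` game: the conjectured formula fails

Maker plays whole stars: he keeps a clique `S` and a large set `C` of candidates joined to all of
`S`, builds a complete graph `T` on `m` vertices inside `C`, and then claims in each turn all `m`
edges from a candidate to `T`, so that the number of candidates shrinks only by the factor `1 + b`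
while the clique grows by `m` vertices (this is the strategy of Gebauer for the `(m:m)` game). Hence
Maker achieves `m log_{1+b} N` asymptotically, which exceeds the conjectured value
`Q(N) ~ 2 log_{(m+b)/m} N` as soon as `(1+b)^2 < (1+b/m)^m`.
-/

namespace Pool.Agent.Results.MP_ba8873_co.FormulaFails

open Finset

/-- The board: all edges of the complete graph on `N` vertices. -/
def board (N : ℕ) : Finset (Sym2 (Fin N)) := univ.filter (fun z => ¬ z.IsDiag)

/-- A position: the set of edges claimed so far by Maker and the set claimed by Breaker. -/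
structure Pos (N : ℕ) where
  maker : Finset (Sym2 (Fin N))
  breaker : Finset (Sym2 (Fin N))

/-- The edges that nobody has claimed yet. -/
def free {N : ℕ} (p : Pos N) : Finset (Sym2 (Fin N)) := board N \ (p.maker ∪ p.breaker)

/-- The play in which Maker follows the strategy `σ` and Breaker claims the set `R i` in his
`i`-th turn: `play σ R i` is the position after `i` rounds. In each round Maker moves first. -/
def play {N : ℕ} (σ : Pos N → Finset (Sym2 (Fin N))) (R : ℕ → Finset (Sym2 (Fin N))) : ℕ → Pos N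
  | 0 => ⟨∅, ∅⟩
  | i + 1 => ⟨(play σ R i).maker ∪ σ (play σ R i), (play σ R i).breaker ∪ R i⟩

/-- Maker's strategy is legal in the `(m:b)` game: in every position it claims exactly `m` free
edges, or all free edges if there are fewer than `m`. -/
def LegalStrategy {N : ℕ} (m : ℕ) (σ : Pos N → Finset (Sym2 (Fin N))) : Prop :=
  ∀ p, σ p ⊆ free p ∧ (σ p).card = min m (free p).card

/-- Breaker's turns are legal in the `(m:b)` game: each time he claims exactly `b` of the edges
that are still free after Maker's move, or all of them if there are fewer than `b`. -/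
def LegalReplies {N : ℕ} (b : ℕ) (σ : Pos N → Finset (Sym2 (Fin N)))
    (R : ℕ → Finset (Sym2 (Fin N))) : Prop :=
  ∀ i, R i ⊆ free (play σ R i) \ σ (play σ R i) ∧
    (R i).card = min b (free (play σ R i) \ σ (play σ R i)).card

/-- The edge set `M` contains all edges of a copy of `K_q`. -/
def ContainsClique {N : ℕ} (q : ℕ) (M : Finset (Sym2 (Fin N))) : Prop :=
  ∃ S : Finset (Fin N), S.card = q ∧ ∀ u ∈ S, ∀ v ∈ S, u ≠ v → s(u, v) ∈ M

/-- Maker has a legal strategy in the `(m:b)` game on `K_N` that builds `K_q` against every legal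
play of Breaker: when all edges are claimed, Maker's edges contain a copy of `K_q`. -/
def MakerCanBuild (m b N q : ℕ) : Prop :=
  ∃ σ : Pos N → Finset (Sym2 (Fin N)), LegalStrategy m σ ∧
    ∀ R : ℕ → Finset (Sym2 (Fin N)), LegalReplies b σ R →
      ∃ i, free (play σ R i) = ∅ ∧ ContainsClique q (play σ R i).maker

/-- `c = (m+b)/m` -/
noncomputable def c (m b : ℕ) : ℝ := ((m : ℝ) + b) / m

/-- `c₀ = m/(m-b)` -/
noncomputable def c₀ (m b : ℕ) : ℝ := (m : ℝ) / ((m : ℝ) - b)

/-- The conjectured value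
`Q(N) = 2 log_c (e N / (2 log_c N)) - 1 + 2 log c / log c₀`. -/
noncomputable def Q (m b N : ℕ) : ℝ :=
  2 * Real.logb (c m b) (Real.exp 1 * N / (2 * Real.logb (c m b) N)) - 1
    + 2 * Real.log (c m b) / Real.log (c₀ m b)

/-- The statement of the question for the pair `m`, `b`: there is a sequence `e N → 0` such that for
all large `N` the largest `q` for which Maker can build `K_q` is `⌊Q(N) + e N⌋`. -/
def Formula (m b : ℕ) : Prop :=
  ∃ e : ℕ → ℝ, Filter.Tendsto e Filter.atTop (nhds 0) ∧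
    ∀ᶠ N : ℕ in Filter.atTop, IsGreatest {q : ℕ | MakerCanBuild m b N q} ⌊Q m b N + e N⌋₊

lemma greedy (m b : ℕ) (hm : 1 ≤ m) (hb : 1 ≤ b) {ε : ℝ} (hε : 0 < ε) :
    ∃ N₀ : ℕ, ∀ N : ℕ, N₀ ≤ N → ∀ q : ℕ,
      (q : ℝ) ≤ (1 - ε) * m * Real.logb (1 + b) N → MakerCanBuild m b N q := by
  have hε' : 0 < min ε (1 / 2) := lt_min hε (by norm_num)
  obtain ⟨N₀, hN₀⟩ := Pool.Agent.Y418.GR.forces_greedy m b hm hb hε'
    (lt_of_le_of_lt (min_le_right _ _) (by norm_num))
  refine ⟨max N₀ 1, fun N hN q hq => ?_⟩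
  have hN1 : (1 : ℝ) ≤ N := by exact_mod_cast le_trans (le_max_right _ _) hN
  have hb1 : (1 : ℝ) ≤ b := by exact_mod_cast hb
  have hlog : 0 ≤ Real.logb (1 + b) N := Real.logb_nonneg (by linarith) hN1
  have hf := hN₀ N (le_trans (le_max_left _ _) hN) q (by
    refine hq.trans ?_
    apply mul_le_mul_of_nonneg_right _ hlog
    apply mul_le_mul_of_nonneg_right _ (Nat.cast_nonneg m)
    have := min_le_left ε (1 / 2)
    linarith)
  obtain ⟨σ, hσ, hplay⟩ := Pool.Agent.Y418.GR.exists_strategy hm hf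
  refine ⟨fun p => σ p.maker p.breaker, fun p => hσ p.maker p.breaker, ?_⟩
  intro R hR
  obtain ⟨i, hi, hg⟩ := hplay (fun i => (play (fun p => σ p.maker p.breaker) R i).maker)
    (fun i => (play (fun p => σ p.maker p.breaker) R i).breaker) R rfl rfl
    (fun _ => rfl) (fun _ => rfl) (fun i => hR i)
  exact ⟨i, hi, hg⟩

/-- an upper bound for the conjectured value -/
lemma Q_le (m b : ℕ) (hb : 1 ≤ b) (hmb : b < m) : ∃ K : ℝ, ∀ᶠ N : ℕ in Filter.atTop,
    Q m b N ≤ 2 / Real.log (1 + b / m) * Real.log N + K := by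
  have hm0 : (0 : ℝ) < m := by
    have : 0 < m := by omega
    exact_mod_cast this
  have hb0 : (0 : ℝ) < b := by exact_mod_cast hb
  have hcc : c m b = 1 + b / m := by
    unfold c
    field_simp
  have hc1 : 1 < c m b := by
    rw [hcc]
    have := div_pos hb0 hm0
    linarith
  have hlc : 0 < Real.log (c m b) := Real.log_pos hc1
  have ht : Filter.Tendsto (fun N : ℕ => Real.logb (c m b) N) Filter.atTop Filter.atTop :=
    (Real.tendsto_logb_atTop hc1).comp tendsto_natCast_atTop_atTop
  refine ⟨2 * Real.log (c m b) / Real.log (c₀ m b), ?_⟩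
  filter_upwards [ht.eventually_ge_atTop (Real.exp 1), Filter.eventually_ge_atTop 1] with N h1 h2
  have hN : (1 : ℝ) ≤ N := by exact_mod_cast h2
  have he : (0 : ℝ) < Real.exp 1 := Real.exp_pos 1
  have h3 : Real.exp 1 * N / (2 * Real.logb (c m b) N) ≤ N := by
    rw [div_le_iff₀ (by linarith)]
    nlinarith
  have h4 : 0 < Real.exp 1 * N / (2 * Real.logb (c m b) N) := by
    have : 0 < Real.logb (c m b) N := by linarith
    positivity
  have h5 := Real.logb_le_logb_of_le hc1 h4 h3
  have h6 : Real.logb (c m b) N = Real.log N / Real.log (c m b) := rfl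
  unfold Q
  rw [← hcc]
  have h7 : 2 / Real.log (c m b) * Real.log N = 2 * Real.logb (c m b) N := by
    rw [h6]; ring
  rw [h7]
  linarith

/-- the main comparison -/
lemma beats (m b : ℕ) (hb : 1 ≤ b) (hmb : b < m)
    (h : 2 * Real.log (1 + b) < m * Real.log (1 + b / m)) :
    ∃ δ : ℝ, 0 < δ ∧ ∀ᶠ N : ℕ in Filter.atTop, 1 ≤ δ * Real.log N ∧ ∀ q : ℕ,
      (q : ℝ) ≤ max 0 (Q m b N) + δ * Real.log N → MakerCanBuild m b N q := by
  have hm0 : (0 : ℝ) < m := by
    have : 0 < m := by omega
    exact_mod_cast this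
  have hb0 : (0 : ℝ) < b := by exact_mod_cast hb
  have hl1 : 0 < Real.log (1 + b) := Real.log_pos (by linarith)
  have hl2 : 0 < Real.log (1 + b / m) := Real.log_pos (by have := div_pos hb0 hm0; linarith)
  set P : ℝ := m / Real.log (1 + b) with hP
  have hP0 : 0 < P := by positivity
  set g : ℝ := P - 2 / Real.log (1 + b / m) with hg
  have hg0 : 0 < g := by
    rw [hg, hP, sub_pos, div_lt_div_iff₀ hl2 hl1]
    exact h
  have hgP : g ≤ P := by
    rw [hg]
    have : 0 < 2 / Real.log (1 + (b : ℝ) / m) := by positivity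
    linarith
  obtain ⟨N₁, hN₁⟩ := greedy m b (by omega) hb (show 0 < g / (4 * P) by positivity)
  obtain ⟨K, hK⟩ := Q_le m b hb hmb
  have hlog : Filter.Tendsto (fun N : ℕ => Real.log (N:ℝ)) Filter.atTop Filter.atTop :=
    Real.tendsto_log_atTop.comp tendsto_natCast_atTop_atTop
  refine ⟨g / 4, by positivity, ?_⟩
  filter_upwards [hK, Filter.eventually_ge_atTop N₁, hlog.eventually_ge_atTop (2 * |K| / g),
    hlog.eventually_ge_atTop (4 / g), hlog.eventually_ge_atTop 0] with N h1 h2 h3 h4 h5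
  refine ⟨?_, ?_⟩
  · rw [div_le_iff₀ hg0] at h4
    linarith
  · intro q hq
    refine hN₁ N h2 q (hq.trans ?_)
    have e : (1 - g / (4 * P)) * m * Real.logb (1 + b) N = (P - g / 4) * Real.log N := by
      unfold Real.logb
      have : (m : ℝ) * (Real.log N / Real.log (1 + b)) = P * Real.log N := by
        rw [hP]; ring
      rw [mul_assoc, this]
      field_simp
    rw [e]
    have h6 : 2 * |K| ≤ Real.log N * g := by
      rwa [div_le_iff₀ hg0] at h3
    have h7 := le_abs_self K
    have h8 : 2 / Real.log (1 + (b : ℝ) / m) = P - g := by rw [hg]; ring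
    rw [h8] at h1
    have h9 : 0 ≤ (P - g) * Real.log N := mul_nonneg (by linarith) h5
    have h10 : 0 ≤ |K| := abs_nonneg K
    have h11 : max 0 (Q m b N) ≤ (P - g) * Real.log N + |K| := by
      apply max_le
      · linarith
      · linarith
    nlinarith

lemma mono_aux {b m m' : ℕ} (hm : 1 ≤ m') (h : m' ≤ m) :
    (m' : ℝ) * Real.log (1 + b / m') ≤ m * Real.log (1 + b / m) := by
  have hm'0 : (0 : ℝ) < m' := by exact_mod_cast hm
  have hmm : (m' : ℝ) ≤ m := by exact_mod_cast h
  have hm0 : (0 : ℝ) < m := by linarith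
  have hb0 : (0 : ℝ) ≤ b := Nat.cast_nonneg b
  have hs : (0 : ℝ) ≤ b / m' := by positivity
  have h1 := rpow_one_add_le_one_add_mul_self (s := (b : ℝ) / m') (by linarith)
    (p := (m' : ℝ) / m) (by positivity) (by rw [div_le_one hm0]; exact hmm)
  have e : (m' : ℝ) / m * (b / m') = b / m := by field_simp
  rw [e] at h1
  have h2 := Real.log_le_log (Real.rpow_pos_of_pos (by linarith) _) h1
  rw [Real.log_rpow (by linarith)] at h2
  calc (m' : ℝ) * Real.log (1 + b / m') = m * ((m' : ℝ) / m * Real.log (1 + b / m')) := by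
        field_simp
    _ ≤ m * Real.log (1 + b / m) := mul_le_mul_of_nonneg_left h2 hm0.le

lemma log_pow_lt {x y : ℝ} {n k : ℕ} (hx : 0 < x) (hy : 0 < y) (h : x ^ k < y ^ n) :
    k * Real.log x < n * Real.log y := by
  rw [← Real.log_pow, ← Real.log_pow]
  exact Real.log_lt_log (by positivity) h

/-- the region in which the condition holds -/
lemma region {m b : ℕ} (h : (5 ≤ b ∧ b < m) ∨ (b = 4 ∧ 8 ≤ m) ∨ (b = 3 ∧ 18 ≤ m)) :
    2 * Real.log (1 + b) < m * Real.log (1 + b / m) := by
  rcases h with ⟨h5, hm⟩ | ⟨rfl, hm⟩ | ⟨rfl, hm⟩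
  · have h1 := mono_aux (b := b) (m := m) (m' := b + 1) (by omega) (by omega)
    refine lt_of_lt_of_le ?_ h1
    have hb5 : (5 : ℝ) ≤ b := by exact_mod_cast h5
    push_cast
    have h2 : (11 : ℝ) / 6 ≤ 1 + b / (b + 1) := by
      have h3 : (5 : ℝ) / 6 ≤ b / (b + 1) := by
        rw [div_le_div_iff₀ (by norm_num) (by linarith)]
        linarith
      linarith
    have h3 : Real.log (11 / 6) ≤ Real.log (1 + b / (b + 1)) :=
      Real.log_le_log (by norm_num) h2
    have h4 : 2 * Real.log 6 < 6 * Real.log (11 / 6) := by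
      have := log_pow_lt (x := 6) (y := 11 / 6) (n := 6) (k := 2) (by norm_num) (by norm_num)
        (by norm_num)
      exact_mod_cast this
    have h6 : 1 < Real.log 6 := by
      rw [Real.lt_log_iff_exp_lt (by norm_num)]
      exact Real.exp_one_lt_d9.trans (by norm_num)
    have h7 : Real.log (1 + b) ≤ Real.log 6 + ((1 + b) / 6 - 1) := by
      have h8 : (1 + b : ℝ) = 6 * ((1 + b) / 6) := by ring
      rw [h8, Real.log_mul (by norm_num) (by positivity)]
      have h9 := Real.log_le_sub_one_of_pos (show (0 : ℝ) < (1 + b) / 6 by positivity)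
      have h10 : (6 : ℝ) * ((1 + b) / 6) / 6 = (1 + b) / 6 := by ring
      rw [h10]
      linarith
    have h11 : ((b : ℝ) + 1) * Real.log (11 / 6) ≤ (b + 1) * Real.log (1 + b / (b + 1)) :=
      mul_le_mul_of_nonneg_left h3 (by linarith)
    nlinarith
  · have h1 := mono_aux (b := 4) (m := m) (m' := 8) (by omega) hm
    refine lt_of_lt_of_le ?_ h1
    have := log_pow_lt (x := 5) (y := 3 / 2) (n := 8) (k := 2) (by norm_num) (by norm_num)
      (by norm_num)
    push_cast at this ⊢
    norm_num at this ⊢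
    exact this
  · have h1 := mono_aux (b := 3) (m := m) (m' := 18) (by omega) hm
    refine lt_of_lt_of_le ?_ h1
    have := log_pow_lt (x := 4) (y := 7 / 6) (n := 18) (k := 2) (by norm_num) (by norm_num)
      (by norm_num)
    push_cast at this ⊢
    norm_num at this ⊢
    exact this

/-- (1) For all `m, b ≥ 1` and `ε > 0`, for all large `N` Maker can build `K_q` in the `(m:b)` game
on `K_N` for all `q ≤ (1 - ε) m log_{1+b} N`.
(2) If `m > b ≥ 1` and `(1 + b)² < (1 + b/m)^m`, then there is `δ > 0` such that for all large `N`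
Maker can build `K_q` for all `q ≤ Q(N) + δ log N`, and the formula for the achievement number fails.
(3) This is the case for all `m > b ≥ 5`, for `b = 4` and all `m ≥ 8`, and for `b = 3` and all
`m ≥ 18`.
(4) So the statement of the question is false. -/
theorem result :
    (∀ m b : ℕ, 1 ≤ m → 1 ≤ b → ∀ ε : ℝ, 0 < ε → ∃ N₀ : ℕ, ∀ N : ℕ, N₀ ≤ N → ∀ q : ℕ,
      (q : ℝ) ≤ (1 - ε) * m * Real.logb (1 + b) N → MakerCanBuild m b N q) ∧
    (∀ m b : ℕ, 1 ≤ b → b < m → (1 + b : ℝ) ^ 2 < (1 + b / m : ℝ) ^ m →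
      (∃ δ : ℝ, 0 < δ ∧ ∃ N₀ : ℕ, ∀ N : ℕ, N₀ ≤ N → ∀ q : ℕ,
        (q : ℝ) ≤ Q m b N + δ * Real.log N → MakerCanBuild m b N q) ∧ ¬ Formula m b) ∧
    (∀ m b : ℕ, (5 ≤ b ∧ b < m) ∨ (b = 4 ∧ 8 ≤ m) ∨ (b = 3 ∧ 18 ≤ m) →
      (1 + b : ℝ) ^ 2 < (1 + b / m : ℝ) ^ m ∧ ¬ Formula m b) ∧
    ¬ (∀ m b : ℕ, 1 ≤ b → b < m → Formula m b) := by
  have h2 : ∀ m b : ℕ, 1 ≤ b → b < m → 2 * Real.log (1 + b) < m * Real.log (1 + b / m) →
      (∃ δ : ℝ, 0 < δ ∧ ∃ N₀ : ℕ, ∀ N : ℕ, N₀ ≤ N → ∀ q : ℕ,
        (q : ℝ) ≤ Q m b N + δ * Real.log N → MakerCanBuild m b N q) ∧ ¬ Formula m b := by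
    intro m b hb hmb hc
    obtain ⟨δ, hδ, hev⟩ := beats m b hb hmb hc
    refine ⟨?_, ?_⟩
    · obtain ⟨N₀, hN₀⟩ := Filter.eventually_atTop.1 hev
      refine ⟨δ, hδ, N₀, fun N hN q hq => (hN₀ N hN).2 q (hq.trans ?_)⟩
      have := le_max_right 0 (Q m b N)
      linarith
    · rintro ⟨e, he, hF⟩
      have hlog : Filter.Tendsto (fun N : ℕ => Real.log (N:ℝ)) Filter.atTop Filter.atTop :=
        Real.tendsto_log_atTop.comp tendsto_natCast_atTop_atTop
      have he1 : ∀ᶠ N : ℕ in Filter.atTop, e N < 1 := he.eventually_lt_const (by norm_num)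
      obtain ⟨N, ⟨⟨h1, h3⟩, h4⟩, h5, h6⟩ :=
        ((hev.and hF).and (he1.and (hlog.eventually_ge_atTop (2 / δ)))).exists
      rw [div_le_iff₀ hδ] at h6
      have h7 : MakerCanBuild m b N (⌊Q m b N + e N⌋₊ + 1) := by
        apply h3
        push_cast
        have h8 : ((⌊Q m b N + e N⌋₊ : ℕ) : ℝ) ≤ max 0 (Q m b N) + 1 := by
          rcases le_or_gt 0 (Q m b N + e N) with h9 | h9
          · have := Nat.floor_le h9
            have := le_max_right 0 (Q m b N)
            linarith
          · rw [Nat.floor_of_nonpos h9.le]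
            have := le_max_left 0 (Q m b N)
            push_cast
            linarith
        linarith
      have h8 := h4.2 h7
      omega
  have hpow : ∀ m b : ℕ, 1 ≤ m → ((1 + b : ℝ) ^ 2 < (1 + b / m : ℝ) ^ m ↔
      2 * Real.log (1 + b) < m * Real.log (1 + b / m)) := by
    intro m b hm
    have hm0 : (0 : ℝ) < m := by exact_mod_cast hm
    have hb0 : (0 : ℝ) ≤ b := Nat.cast_nonneg b
    have hx : (0 : ℝ) < 1 + b := by linarith
    have hy : (0 : ℝ) < 1 + b / m := by positivity
    rw [← Real.log_lt_log_iff (by positivity) (by positivity), Real.log_pow, Real.log_pow]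
    norm_num
  have h3 : ∀ m b : ℕ, (5 ≤ b ∧ b < m) ∨ (b = 4 ∧ 8 ≤ m) ∨ (b = 3 ∧ 18 ≤ m) →
      (1 + b : ℝ) ^ 2 < (1 + b / m : ℝ) ^ m ∧ ¬ Formula m b := by
    intro m b h
    have hr := region h
    have hb : 1 ≤ b := by omega
    have hmb : b < m := by omega
    exact ⟨(hpow m b (by omega)).mpr hr, (h2 m b hb hmb hr).2⟩
  refine ⟨fun m b hm hb ε hε => greedy m b hm hb hε,
    fun m b hb hmb hc => h2 m b hb hmb ((hpow m b (by omega)).mp hc), h3, ?_⟩
  intro hall
  exact (h3 6 5 (Or.inl ⟨le_rfl, by norm_num⟩)).2 (hall 6 5 (by norm_num) (by norm_num))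

end Pool.Agent.Results.MP_ba8873_co.FormulaFails
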